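import Mathlib

set_option autoImplicit false
open Filter Topology

namespace Pool.Agent.K6.H78.Blow

section blowup

variable {V Ω : Type} [Fintype V] [Fintype Ω] [Nonempty Ω]

/-- The label of a vertex of the blow-up. -/
noncomputable def lab (Ω : Type) [Fintype Ω] [Nonempty Ω] (n : ℕ) (i : Fin n) : Ω :=
  (Fintype.equivFin Ω).symm ⟨i.1 % Fintype.card Ω, Nat.mod_lt _ Fintype.card_pos⟩

open Classical in
theorem class_card (n : ℕ) (a : Ω) :
    (Finset.univ.filter (fun i : Fin n => lab Ω n i = a)).card
      = n / Fintype.card Ω +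
        if ((Fintype.equivFin Ω a).1) % Fintype.card Ω < n % Fintype.card Ω then 1 else 0 := by
  have hpos : 0 < Fintype.card Ω := Fintype.card_pos
  rw [← Nat.count_modEq_card n hpos, Nat.count_eq_card_filter_range]
  have h : (Finset.univ.filter (fun i : Fin n => lab Ω n i = a)) =
      Finset.univ.filter (fun i : Fin n => (i : ℕ) ≡ (Fintype.equivFin Ω a).1 [MOD Fintype.card Ω]) := by
    ext i
    simp only [Finset.mem_filter, Finset.mem_univ, true_and]
    unfold lab
    rw [Equiv.symm_apply_eq]
    unfold Nat.ModEq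
    rw [Fin.ext_iff]
    simp only
    rw [Nat.mod_eq_of_lt (Fintype.equivFin Ω a).2]
  rw [h]
  rw [← Finset.card_map Fin.valEmbedding]
  congr 1
  ext j
  simp only [Finset.mem_map, Finset.mem_filter, Finset.mem_univ, true_and, Finset.mem_range]
  constructor
  · rintro ⟨i, hi, rfl⟩
    exact ⟨i.2, hi⟩
  · rintro ⟨h1, h2⟩
    exact ⟨⟨j, h1⟩, h2, rfl⟩

open Classical in
theorem class_tendsto (a : Ω) :
    Tendsto (fun n : ℕ => ((Finset.univ.filter (fun i : Fin n => lab Ω n i = a)).card : ℝ) / n)
      atTop (𝓝 (1 / Fintype.card Ω)) := by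
  have hpos : (0:ℝ) < Fintype.card Ω := by exact_mod_cast Fintype.card_pos
  have hb : ∀ n : ℕ, |((Finset.univ.filter (fun i : Fin n => lab Ω n i = a)).card : ℝ)
      - n / Fintype.card Ω| ≤ 1 := by
    intro n
    rw [class_card]
    have h1 := Nat.div_add_mod n (Fintype.card Ω)
    have h2 := Nat.mod_lt n (Fintype.card_pos (α := Ω))
    have e1 : ((n : ℕ) : ℝ) = (Fintype.card Ω : ℝ) * ((n / Fintype.card Ω : ℕ) : ℝ)
        + ((n % Fintype.card Ω : ℕ) : ℝ) := by exact_mod_cast h1.symm
    have e2 : ((n % Fintype.card Ω : ℕ) : ℝ) < Fintype.card Ω := by exact_mod_cast h2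
    have e3 : (0:ℝ) ≤ ((n % Fintype.card Ω : ℕ) : ℝ) := by positivity
    have e4 : (n : ℝ) / Fintype.card Ω = ((n / Fintype.card Ω : ℕ) : ℝ)
        + ((n % Fintype.card Ω : ℕ) : ℝ) / Fintype.card Ω := by
      rw [e1]; field_simp
    have e5 : ((n % Fintype.card Ω : ℕ) : ℝ) / Fintype.card Ω ≤ 1 := by
      rw [div_le_one hpos]; exact e2.le
    have e6 : 0 ≤ ((n % Fintype.card Ω : ℕ) : ℝ) / Fintype.card Ω := by positivity
    rw [e4]
    push_cast
    rw [abs_le]
    split_ifs <;> constructor <;> linarith
  rw [Metric.tendsto_atTop]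
  intro ε hε
  obtain ⟨K, hK⟩ := exists_nat_gt (1 / ε)
  refine ⟨K + 1, fun n hn => ?_⟩
  have hn0 : (0:ℝ) < n := by
    have : 0 < n := by omega
    exact_mod_cast this
  rw [Real.dist_eq]
  have : ((Finset.univ.filter (fun i : Fin n => lab Ω n i = a)).card : ℝ) / n - 1 / Fintype.card Ω
      = (((Finset.univ.filter (fun i : Fin n => lab Ω n i = a)).card : ℝ) - n / Fintype.card Ω) / n := by
    field_simp
  rw [this, abs_div, abs_of_pos hn0, div_lt_iff₀ hn0]
  have h1 : (1:ℝ) / ε < n := by
    refine hK.trans_le ?_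
    have : K ≤ n := by omega
    exact_mod_cast this
  rw [div_lt_iff₀ hε] at h1
  calc _ ≤ (1:ℝ) := hb n
    _ < n * ε := h1
    _ = ε * n := mul_comm _ _

open Classical in
theorem card_lab (n : ℕ) (P : (V → Ω) → Prop) :
    (Finset.univ.filter (fun f : V → Fin n => P (fun v => lab Ω n (f v)))).card
      = ∑ φ ∈ Finset.univ.filter (fun φ : V → Ω => P φ),
          ∏ v, (Finset.univ.filter (fun i : Fin n => lab Ω n i = φ v)).card := by
  rw [Finset.card_eq_sum_card_fiberwise (f := fun f : V → Fin n => fun v => lab Ω n (f v))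
    (t := Finset.univ.filter (fun φ : V → Ω => P φ))]
  · refine Finset.sum_congr rfl fun φ hφ => ?_
    rw [← Fintype.card_piFinset]
    congr 1
    ext f
    simp only [Finset.mem_filter, Finset.mem_univ, true_and, Fintype.mem_piFinset]
    simp only [Finset.mem_filter, Finset.mem_univ, true_and] at hφ
    constructor
    · rintro ⟨_, h⟩ v
      exact congrFun h v
    · intro h
      have : (fun v => lab Ω n (f v)) = φ := funext h
      exact ⟨by rw [this]; exact hφ, this⟩
  · intro f hf
    simpa using hf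

theorem lab_tendsto (P : (V → Ω) → Prop) :
    Tendsto (fun n : ℕ => (Set.ncard {f : V → Fin n | P (fun v => lab Ω n (f v))} : ℝ)
        / (n : ℝ) ^ Fintype.card V) atTop
      (𝓝 ((Set.ncard {φ : V → Ω | P φ} : ℝ) / (Fintype.card Ω : ℝ) ^ Fintype.card V)) := by
  classical
  have h1 : ∀ n : ℕ, (Set.ncard {f : V → Fin n | P (fun v => lab Ω n (f v))} : ℝ)
        / (n : ℝ) ^ Fintype.card V = ∑ φ ∈ Finset.univ.filter (fun φ : V → Ω => P φ),
          ∏ v, (((Finset.univ.filter (fun i : Fin n => lab Ω n i = φ v)).card : ℝ) / n) := by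
    intro n
    have : {f : V → Fin n | P (fun v => lab Ω n (f v))} =
      ((Finset.univ.filter (fun f : V → Fin n => P (fun v => lab Ω n (f v))) : Finset _) : Set _) := by
      ext f; simp
    rw [this, Set.ncard_coe_finset, card_lab]
    push_cast
    rw [Finset.sum_div]
    refine Finset.sum_congr rfl fun φ _ => ?_
    rw [Finset.prod_div_distrib, Finset.prod_const, Finset.card_univ]
  have h2 : (Set.ncard {φ : V → Ω | P φ} : ℝ) / (Fintype.card Ω : ℝ) ^ Fintype.card V
      = ∑ φ ∈ Finset.univ.filter (fun φ : V → Ω => P φ), ∏ _v : V, (1 / (Fintype.card Ω : ℝ)) := by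
    have : {φ : V → Ω | P φ} =
      ((Finset.univ.filter (fun φ : V → Ω => P φ) : Finset _) : Set _) := by
      ext f; simp
    rw [this, Set.ncard_coe_finset, Finset.sum_const, Finset.prod_const, Finset.card_univ,
      nsmul_eq_mul, one_div, inv_pow]
    rfl
  rw [h2]
  simp_rw [h1]
  refine tendsto_finsetSum _ fun φ _ => ?_
  exact tendsto_finsetProd _ fun v _ => class_tendsto _

/-- Injective lifts are asymptotically all lifts. -/
theorem inj_tendsto (P : (V → Ω) → Prop) :
    Tendsto (fun n : ℕ => (Set.ncard {f : V → Fin n | Function.Injective f ∧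
        P (fun v => lab Ω n (f v))} : ℝ)
        / (n.descFactorial (Fintype.card V) : ℝ)) atTop
      (𝓝 ((Set.ncard {φ : V → Ω | P φ} : ℝ) / (Fintype.card Ω : ℝ) ^ Fintype.card V)) := by
  classical
  set k := Fintype.card V with hk
  have hD : Tendsto (fun n : ℕ => (n.descFactorial k : ℝ) / (n : ℝ) ^ k) atTop (𝓝 1) := by
    have h := isEquivalent_descFactorial k
    rwa [Asymptotics.isEquivalent_iff_tendsto_one] at h
    filter_upwards [eventually_ge_atTop 1] with n hn
    have : (0:ℝ) < n := by exact_mod_cast hn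
    positivity
  have hA := lab_tendsto (V := V) P
  -- number of injective functions
  have hinj : ∀ n : ℕ, (Finset.univ.filter (fun f : V → Fin n => Function.Injective f)).card
      = n.descFactorial k := by
    intro n
    have h1 : Fintype.card {f : V → Fin n // Function.Injective f} = Fintype.card (V ↪ Fin n) :=
      Fintype.card_congr (Equiv.subtypeInjectiveEquivEmbedding V (Fin n))
    rw [Fintype.card_embedding_eq, Fintype.card_fin] at h1
    rw [← h1, Fintype.card_subtype]
  have hBA : ∀ n : ℕ, (Set.ncard {f : V → Fin n | Function.Injective f ∧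
        P (fun v => lab Ω n (f v))} : ℝ) ≤
      (Set.ncard {f : V → Fin n | P (fun v => lab Ω n (f v))} : ℝ) := by
    intro n
    have : Set.ncard {f : V → Fin n | Function.Injective f ∧ P (fun v => lab Ω n (f v))} ≤
      Set.ncard {f : V → Fin n | P (fun v => lab Ω n (f v))} :=
      Set.ncard_le_ncard (fun f hf => hf.2) (Set.toFinite _)
    exact_mod_cast this
  have hAB : ∀ n : ℕ, (Set.ncard {f : V → Fin n | P (fun v => lab Ω n (f v))} : ℝ)
      - ((n : ℝ) ^ k - n.descFactorial k) ≤
      (Set.ncard {f : V → Fin n | Function.Injective f ∧ P (fun v => lab Ω n (f v))} : ℝ) := by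
    intro n
    have h1 : (Finset.univ.filter (fun f : V → Fin n => P (fun v => lab Ω n (f v)))).card +
        (Finset.univ.filter (fun f : V → Fin n => Function.Injective f)).card ≤
        (Finset.univ.filter (fun f : V → Fin n => Function.Injective f ∧
          P (fun v => lab Ω n (f v)))).card + (Finset.univ : Finset (V → Fin n)).card := by
      rw [← Finset.card_union_add_card_inter, add_comm]
      refine Nat.add_le_add ?_ ?_
      · refine Finset.card_le_card fun f hf => ?_
        simp only [Finset.mem_inter, Finset.mem_filter, Finset.mem_univ, true_and] at hf ⊢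
        exact ⟨hf.2, hf.1⟩
      · exact Finset.card_le_card (Finset.subset_univ _)
    rw [hinj, Finset.card_univ, Fintype.card_fun, Fintype.card_fin, ← hk] at h1
    have e1 : {f : V → Fin n | P (fun v => lab Ω n (f v))} =
      ((Finset.univ.filter (fun f : V → Fin n => P (fun v => lab Ω n (f v))) : Finset _) : Set _) := by
      ext f; simp
    have e2 : {f : V → Fin n | Function.Injective f ∧ P (fun v => lab Ω n (f v))} =
      ((Finset.univ.filter (fun f : V → Fin n => Function.Injective f ∧
        P (fun v => lab Ω n (f v))) : Finset _) : Set _) := by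
      ext f; simp
    rw [e1, e2, Set.ncard_coe_finset, Set.ncard_coe_finset]
    have h2 : ((Finset.univ.filter (fun f : V → Fin n => P (fun v => lab Ω n (f v)))).card : ℝ) +
        (n.descFactorial k : ℝ) ≤ ((Finset.univ.filter (fun f : V → Fin n => Function.Injective f ∧
          P (fun v => lab Ω n (f v)))).card : ℝ) + (n : ℝ) ^ k := by exact_mod_cast h1
    linarith
  set L := (Set.ncard {φ : V → Ω | P φ} : ℝ) / (Fintype.card Ω : ℝ) ^ k with hL
  have hB : Tendsto (fun n : ℕ => (Set.ncard {f : V → Fin n | Function.Injective f ∧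
        P (fun v => lab Ω n (f v))} : ℝ) / (n : ℝ) ^ k) atTop (𝓝 L) := by
    have hlow : Tendsto (fun n : ℕ => (Set.ncard {f : V → Fin n | P (fun v => lab Ω n (f v))} : ℝ)
        / (n : ℝ) ^ k - (1 - (n.descFactorial k : ℝ) / (n : ℝ) ^ k)) atTop (𝓝 L) := by
      have := hA.sub ((tendsto_const_nhds (x := (1:ℝ))).sub hD)
      simpa using this
    refine tendsto_of_tendsto_of_tendsto_of_le_of_le' hlow hA ?_ ?_
    · filter_upwards [eventually_ge_atTop 1] with n hn
      have hn0 : (0:ℝ) < n := by exact_mod_cast hn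
      have hp : (0:ℝ) < (n:ℝ) ^ k := by positivity
      have : (Set.ncard {f : V → Fin n | P (fun v => lab Ω n (f v))} : ℝ)
        / (n : ℝ) ^ k - (1 - (n.descFactorial k : ℝ) / (n : ℝ) ^ k) =
        ((Set.ncard {f : V → Fin n | P (fun v => lab Ω n (f v))} : ℝ)
      - ((n : ℝ) ^ k - n.descFactorial k)) / (n : ℝ) ^ k := by
        field_simp
      rw [this]
      exact div_le_div_of_nonneg_right (hAB n) hp.le
    · filter_upwards with n
      exact div_le_div_of_nonneg_right (hBA n) (by positivity)
  have hfin := hB.div hD one_ne_zero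
  rw [div_one] at hfin
  refine hfin.congr' ?_
  filter_upwards [eventually_ge_atTop 1] with n hn
  have hn0 : (0:ℝ) < n := by exact_mod_cast hn
  have hp : ((n:ℝ) ^ k) ≠ 0 := by positivity
  simp only [Pi.div_apply]
  rw [div_div_div_cancel_right₀ hp]

end blowup

/-- A diagonal argument. -/
theorem diag (Q : ℕ → ℕ → Prop) (h : ∀ m, ∀ᶠ n in atTop, Q m n) :
    ∃ μ : ℕ → ℕ, Tendsto μ atTop atTop ∧ ∀ᶠ n in atTop, Q (μ n) n := by
  have h' : ∀ m, ∃ T, ∀ n ≥ T, Q m n := fun m => eventually_atTop.1 (h m)
  choose T hT using h'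
  let S : ℕ → ℕ := fun m => ∑ k ∈ Finset.range (m + 1), T k
  have hTS : ∀ m, T m ≤ S m := fun m =>
    Finset.single_le_sum (f := T) (fun _ _ => Nat.zero_le _) (Finset.mem_range.2 (Nat.lt_succ_self m))
  classical
  refine ⟨fun n => Nat.findGreatest (fun m => S m ≤ n) n, ?_, ?_⟩
  · rw [tendsto_atTop]
    intro b
    filter_upwards [eventually_ge_atTop (max (S b) b)] with n hn
    exact Nat.le_findGreatest (le_trans (le_max_right _ _) hn) (le_trans (le_max_left _ _) hn)
  · filter_upwards [eventually_ge_atTop (S 0)] with n hn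
    have h1 : S (Nat.findGreatest (fun m => S m ≤ n) n) ≤ n :=
      Nat.findGreatest_spec (P := fun m => S m ≤ n) (Nat.zero_le n) hn
    exact hT _ _ ((hTS _).trans h1)

end Pool.Agent.K6.H78.Blow
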