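import Mathlib

set_option autoImplicit false
open Filter Topology

namespace Pool.Agent.K6.H78.Count

/-- The `N`-th categorical power of the complete graph on `m` vertices. -/
def H (N m : ℕ) : SimpleGraph (Fin N → Fin m) where
  Adj x y := x ≠ y ∧ ∀ i, x i ≠ y i
  symm := ⟨fun x y h => ⟨h.1.symm, fun i => (h.2 i).symm⟩⟩
  loopless := ⟨fun x h => h.1 rfl⟩

/-- The set of proper `m`-colourings. -/
def Col {V : Type} (F : SimpleGraph V) (m : ℕ) : Set (V → Fin m) :=
  {c | ∀ i j, F.Adj i j → c i ≠ c j}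

theorem hom_count {V : Type} [Fintype V] (F : SimpleGraph V) (N m : ℕ) (hN : 0 < N) :
    Set.ncard {φ : V → (Fin N → Fin m) | ∀ i j, F.Adj i j → (H N m).Adj (φ i) (φ j)}
      = (Set.ncard (Col F m)) ^ N := by
  classical
  have e : {φ : V → (Fin N → Fin m) | ∀ i j, F.Adj i j → (H N m).Adj (φ i) (φ j)} =
      (Equiv.piComm (fun (_ : V) (_ : Fin N) => Fin m)).symm '' (Set.pi Set.univ fun _ : Fin N => Col F m) := by
    ext φ
    simp only [Set.mem_ofPred_eq, Set.mem_image, Set.mem_pi, Set.mem_univ, true_implies, Col]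
    constructor
    · intro h
      refine ⟨fun k v => φ v k, fun k i j hij => (h i j hij).2 k, rfl⟩
    · rintro ⟨ψ, hψ, rfl⟩ i j hij
      refine ⟨fun heq => ?_, fun k => hψ k i j hij⟩
      exact hψ ⟨0, hN⟩ i j hij (congrFun heq ⟨0, hN⟩)
  rw [e, Set.ncard_image_of_injective _ (Equiv.injective _)]
  have : (Set.pi Set.univ fun _ : Fin N => Col F m) =
      ((Fintype.piFinset fun _ : Fin N => (Col F m).toFinset : Finset _) : Set _) := by
    ext ψ
    simp
  rw [this, Set.ncard_coe_finset, Fintype.card_piFinset, Finset.prod_const, Finset.card_univ,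
    Fintype.card_fin, Set.ncard_eq_toFinset_card']

theorem col_top {V : Type} [Fintype V] (m : ℕ) :
    Set.ncard (Col (⊤ : SimpleGraph V) m) = m.descFactorial (Fintype.card V) := by
  classical
  have h : Col (⊤ : SimpleGraph V) m = {f | Function.Injective f} := by
    ext c
    simp only [Col, SimpleGraph.top_adj, Set.mem_ofPred_eq, Function.Injective]
    constructor
    · intro h a b hab
      by_contra hne
      exact h a b hne hab
    · intro h i j hij hc
      exact hij (h hc)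
  rw [h]
  have h1 : Fintype.card {f : V → Fin m // Function.Injective f} = Fintype.card (V ↪ Fin m) :=
    Fintype.card_congr (Equiv.subtypeInjectiveEquivEmbedding V (Fin m))
  rw [Fintype.card_embedding_eq, Fintype.card_fin] at h1
  rw [← h1, Set.ncard_eq_toFinset_card', Fintype.card_subtype]
  congr 1
  ext f
  simp

/-- The number of distinct values of `x`. -/
def dv {s m : ℕ} (x : Fin s → Fin m) : ℕ := (Finset.univ.image x).card

theorem dv_le {s m : ℕ} (x : Fin s → Fin m) : dv x ≤ s := by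
  unfold dv
  exact Finset.card_image_le.trans (by simp)

theorem dv_le' {s m : ℕ} (x : Fin s → Fin m) : dv x ≤ m := by
  unfold dv
  exact (Finset.card_le_univ _).trans (by simp)

theorem col_bip (s t m : ℕ) :
    Set.ncard (Col (completeBipartiteGraph (Fin s) (Fin t)) m)
      = ∑ x : Fin s → Fin m, (m - dv x) ^ t := by
  classical
  have e : Col (completeBipartiteGraph (Fin s) (Fin t)) m =
      (Equiv.sumArrowEquivProdArrow (Fin s) (Fin t) (Fin m)).symm ''
        {q | ∀ i j, q.1 i ≠ q.2 j} := by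
    ext c
    simp only [Col, completeBipartiteGraph_adj, Set.mem_ofPred_eq, Set.mem_image]
    constructor
    · intro h
      refine ⟨(fun i => c (Sum.inl i), fun j => c (Sum.inr j)), fun i j => ?_, ?_⟩
      · exact h (Sum.inl i) (Sum.inr j) (by simp)
      · ext v
        cases v <;> rfl
    · rintro ⟨q, hq, rfl⟩ i j hij
      rcases i with i | i <;> rcases j with j | j <;> simp at hij
      · exact hq i j
      · exact (hq j i).symm
  rw [e, Set.ncard_image_of_injective _ (Equiv.injective _)]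
  have e2 : {q : (Fin s → Fin m) × (Fin t → Fin m) | ∀ i j, q.1 i ≠ q.2 j} =
      ((Finset.univ.sigma fun x : Fin s → Fin m =>
        Fintype.piFinset fun _ : Fin t => (Finset.univ.image x)ᶜ).map
          ⟨fun q => (q.1, q.2), fun a b h => by
            cases a; cases b; simp at h; simp [h]⟩ : Finset _) := by
    ext q
    simp only [Set.mem_ofPred_eq, Finset.coe_map, Function.Embedding.coeFn_mk, Set.mem_image,
      Finset.mem_coe, Finset.mem_sigma, Finset.mem_univ, true_and, Fintype.mem_piFinset,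
      Finset.mem_compl, Finset.mem_image, not_exists]
    constructor
    · intro h
      exact ⟨⟨q.1, q.2⟩, fun j i => h i j, rfl⟩
    · rintro ⟨⟨x, y⟩, h, rfl⟩ i j
      exact h j i
  rw [e2, Set.ncard_coe_finset, Finset.card_map, Finset.card_sigma]
  refine Finset.sum_congr rfl fun x _ => ?_
  rw [Fintype.card_piFinset, Finset.prod_const, Finset.card_compl, Finset.card_univ,
    Fintype.card_fin, Fintype.card_fin]
  rfl

theorem sum_dv (s m : ℕ) :
    ∑ x : Fin s → Fin m, dv x = m * (m ^ s - (m - 1) ^ s) := by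
  classical
  have h1 : ∀ x : Fin s → Fin m, dv x = ∑ a : Fin m, if a ∈ Finset.univ.image x then 1 else 0 := by
    intro x
    unfold dv
    rw [Finset.sum_ite_mem, Finset.univ_inter, Finset.sum_const, smul_eq_mul, mul_one]
  simp_rw [h1]
  rw [Finset.sum_comm]
  have h2 : ∀ a : Fin m, (∑ x : Fin s → Fin m, if a ∈ Finset.univ.image x then 1 else 0)
      = m ^ s - (m - 1) ^ s := by
    intro a
    rw [← Finset.card_filter]
    have h3 : (Finset.univ.filter fun x : Fin s → Fin m => a ∈ Finset.univ.image x) =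
        (Fintype.piFinset fun _ : Fin s => ({a}ᶜ : Finset (Fin m)))ᶜ := by
      ext x
      simp
    rw [h3, Finset.card_compl, Fintype.card_piFinset, Finset.prod_const, Finset.card_compl,
      Fintype.card_fun, Finset.card_singleton, Finset.card_univ, Fintype.card_fin, Fintype.card_fin]
  rw [Finset.sum_congr rfl fun a _ => h2 a, Finset.sum_const, Finset.card_univ, Fintype.card_fin,
    smul_eq_mul]

theorem one_sub_pow_le (s : ℕ) (y : ℝ) (h0 : 0 ≤ y) (h1 : y ≤ 1) :
    (1 - y) ^ s ≤ 1 - s * y + s ^ 2 * y ^ 2 := by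
  induction s with
  | zero => simp
  | succ s ih =>
    rw [pow_succ]
    calc (1 - y) ^ s * (1 - y) ≤ (1 - s * y + s ^ 2 * y ^ 2) * (1 - y) :=
          mul_le_mul_of_nonneg_right ih (by linarith)
      _ ≤ 1 - ((s + 1 : ℕ) : ℝ) * y + ((s + 1 : ℕ) : ℝ) ^ 2 * y ^ 2 := by
          push_cast
          have : (0:ℝ) ≤ (s:ℝ) ^ 2 * y ^ 3 := by positivity
          have : (0:ℝ) ≤ (s:ℝ) * y ^ 2 := by positivity
          have : (0:ℝ) ≤ y ^ 2 := by positivity
          nlinarith

theorem sum_def (s m : ℕ) (hm : 1 ≤ m) :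
    ∑ x : Fin s → Fin m, ((s : ℝ) - dv x) ≤ s ^ 2 / m * m ^ s := by
  have hm0 : (0:ℝ) < m := by exact_mod_cast hm
  rw [Finset.sum_sub_distrib, Finset.sum_const, Finset.card_univ, Fintype.card_fun, Fintype.card_fin,
    Fintype.card_fin, nsmul_eq_mul]
  have h1 : (∑ x : Fin s → Fin m, (dv x : ℝ)) = m * (m ^ s - (m - 1) ^ s) := by
    have := sum_dv s m
    have h2 : ((∑ x : Fin s → Fin m, dv x : ℕ) : ℝ) = ((m * (m ^ s - (m - 1) ^ s) : ℕ) : ℝ) := by
      rw [this]
    rw [Nat.cast_sum] at h2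
    rw [h2, Nat.cast_mul, Nat.cast_sub (Nat.pow_le_pow_left (Nat.sub_le _ _) _)]
    push_cast [Nat.cast_sub hm]
    ring
  rw [h1]
  have h3 := one_sub_pow_le s (1 / m) (by positivity) (by
    rw [div_le_one hm0]; exact_mod_cast hm)
  have h4 : ((m:ℝ) - 1) ^ s = (1 - 1 / m) ^ s * m ^ s := by
    rw [← mul_pow]
    congr 1
    field_simp
  rw [h4]
  have h5 : (0:ℝ) < (m:ℝ) ^ s := by positivity
  push_cast
  calc (m:ℝ) ^ s * s - m * (m ^ s - (1 - 1 / m) ^ s * m ^ s)
      = m ^ s * (s - m + m * (1 - 1 / m) ^ s) := by ring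
    _ ≤ m ^ s * (s - m + m * (1 - s * (1 / m) + s ^ 2 * (1 / m) ^ 2)) := by gcongr
    _ = s ^ 2 / m * m ^ s := by field_simp; ring

theorem one_add_pow_le (t : ℕ) (u : ℝ) (h0 : 0 ≤ u) (h1 : u ≤ 1) :
    (1 + u) ^ t ≤ 1 + (2 ^ t - 1) * u := by
  induction t with
  | zero => simp
  | succ t ih =>
    rw [pow_succ]
    calc (1 + u) ^ t * (1 + u) ≤ (1 + (2 ^ t - 1) * u) * (1 + u) :=
          mul_le_mul_of_nonneg_right ih (by linarith)
      _ ≤ 1 + (2 ^ (t + 1) - 1) * u := by
          have h2 : (0:ℝ) ≤ 2 ^ t - 1 := by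
            have : (1:ℝ) ≤ 2 ^ t := one_le_pow₀ (by norm_num)
            linarith
          have h3 : u * u ≤ u := by nlinarith
          have h4 : ((2:ℝ) ^ t - 1) * (u * u) ≤ (2 ^ t - 1) * u := by gcongr
          rw [pow_succ]
          nlinarith

/-- The normalised number of colourings of `K_{s,t}` is at most `1 + O(1/m ^ 2)`. -/
theorem bip_bound (s t m : ℕ) (hm : 2 * s + 2 ≤ m) :
    (Set.ncard (Col (completeBipartiteGraph (Fin s) (Fin t)) m) : ℝ) / (m : ℝ) ^ (s + t)
      ≤ (1 - 1 / m) ^ (s * t) * (1 + 2 ^ (t + 1) * s ^ 2 / m ^ 2) := by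
  have hm1 : 1 ≤ m := by omega
  have hm0 : (0:ℝ) < m := by exact_mod_cast hm1
  have hms : (0:ℝ) < (m:ℝ) - s := by
    have : (2 * s + 2 : ℝ) ≤ m := by exact_mod_cast hm
    have : (0:ℝ) ≤ s := by positivity
    linarith
  have hms2 : (m:ℝ) / 2 ≤ (m:ℝ) - s := by
    have : (2 * s + 2 : ℝ) ≤ m := by exact_mod_cast hm
    linarith
  rw [col_bip]
  push_cast
  have h1 : ∀ x : Fin s → Fin m, ((m - dv x : ℕ) : ℝ) ^ t ≤
      ((m:ℝ) - s) ^ t * (1 + 2 ^ (t + 1) / m * ((s:ℝ) - dv x)) := by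
    intro x
    have hd : (dv x : ℝ) ≤ s := by exact_mod_cast dv_le x
    set u : ℝ := ((s:ℝ) - dv x) / (m - s) with hu
    have hu0 : 0 ≤ u := div_nonneg (by linarith) hms.le
    have hu1 : u ≤ 1 := by
      rw [hu, div_le_one hms]
      have : (2 * s + 2 : ℝ) ≤ m := by exact_mod_cast hm
      have : (0:ℝ) ≤ dv x := by positivity
      linarith
    rw [Nat.cast_sub (dv_le' x)]
    have e1 : (m:ℝ) - dv x = (m - s) * (1 + u) := by
      rw [hu]; field_simp; ring
    rw [e1, mul_pow]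
    refine mul_le_mul_of_nonneg_left ?_ (by positivity)
    refine (one_add_pow_le t u hu0 hu1).trans ?_
    have h2 : u ≤ 2 / m * ((s:ℝ) - dv x) := by
      rw [hu, div_mul_eq_mul_div, div_le_div_iff₀ hms hm0]
      nlinarith
    have h3 : (0:ℝ) ≤ 2 ^ t - 1 := by
      have : (1:ℝ) ≤ 2 ^ t := one_le_pow₀ (by norm_num)
      linarith
    have h4 : (0:ℝ) < 2 ^ t := by positivity
    calc 1 + ((2:ℝ) ^ t - 1) * u ≤ 1 + 2 ^ t * u := by nlinarith
      _ ≤ 1 + 2 ^ t * (2 / m * ((s:ℝ) - dv x)) := by gcongr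
      _ = 1 + 2 ^ (t + 1) / m * ((s:ℝ) - dv x) := by rw [pow_succ]; ring
  have h2 : (∑ x : Fin s → Fin m, ((m - dv x : ℕ) : ℝ) ^ t) ≤
      ((m:ℝ) - s) ^ t * (m ^ s * (1 + 2 ^ (t + 1) * s ^ 2 / m ^ 2)) := by
    calc (∑ x : Fin s → Fin m, ((m - dv x : ℕ) : ℝ) ^ t)
        ≤ ∑ x : Fin s → Fin m, ((m:ℝ) - s) ^ t * (1 + 2 ^ (t + 1) / m * ((s:ℝ) - dv x)) :=
          Finset.sum_le_sum fun x _ => h1 x
      _ = ((m:ℝ) - s) ^ t * (m ^ s + 2 ^ (t + 1) / m * ∑ x : Fin s → Fin m, ((s:ℝ) - dv x)) := by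
          rw [← Finset.mul_sum, Finset.sum_add_distrib, Finset.sum_const, Finset.card_univ,
            Fintype.card_fun, Fintype.card_fin, Fintype.card_fin, nsmul_eq_mul, mul_one,
            ← Finset.mul_sum]
          push_cast
          rfl
      _ ≤ ((m:ℝ) - s) ^ t * (m ^ s + 2 ^ (t + 1) / m * (s ^ 2 / m * m ^ s)) := by
          have := sum_def s m hm1
          gcongr
      _ = ((m:ℝ) - s) ^ t * (m ^ s * (1 + 2 ^ (t + 1) * s ^ 2 / m ^ 2)) := by
          field_simp
  rw [div_le_iff₀ (by positivity)]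
  refine h2.trans ?_
  have h3 : ((m:ℝ) - s) ≤ m * (1 - 1 / m) ^ s := by
    have hb := one_add_mul_le_pow (a := -(1 / (m:ℝ))) (by
      have : 1 / (m:ℝ) ≤ 1 := by rw [div_le_one hm0]; exact_mod_cast hm1
      linarith) s
    have : (m:ℝ) - s = m * (1 + s * (-(1 / (m:ℝ)))) := by field_simp; ring
    rw [this, sub_eq_add_neg]
    exact mul_le_mul_of_nonneg_left hb hm0.le
  calc ((m:ℝ) - s) ^ t * ((m:ℝ) ^ s * (1 + 2 ^ (t + 1) * (s:ℝ) ^ 2 / (m:ℝ) ^ 2))
      ≤ ((m:ℝ) * (1 - 1 / (m:ℝ)) ^ s) ^ t * ((m:ℝ) ^ s * (1 + 2 ^ (t + 1) * (s:ℝ) ^ 2 / (m:ℝ) ^ 2)) := by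
        gcongr
    _ = (1 - 1 / (m:ℝ)) ^ (s * t) * (1 + 2 ^ (t + 1) * (s:ℝ) ^ 2 / (m:ℝ) ^ 2) * (m:ℝ) ^ (s + t) := by
        rw [mul_pow, ← pow_mul, pow_add]; ring

theorem col_C4 (m : ℕ) :
    Set.ncard (Col (SimpleGraph.cycleGraph 4) m)
      = Set.ncard (Col (completeBipartiteGraph (Fin 2) (Fin 2)) m) := by
  have e : ∀ i j : Fin 4, (SimpleGraph.cycleGraph 4).Adj i j ↔ (i.1 % 2 ≠ j.1 % 2) := by decide
  let g : Fin 2 ⊕ Fin 2 → Fin 4 := Sum.elim (fun i => ![0, 2] i) (fun i => ![1, 3] i)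
  let g' : Fin 4 → Fin 2 ⊕ Fin 2 := ![Sum.inl 0, Sum.inr 0, Sum.inl 1, Sum.inr 1]
  have hg1 : ∀ x, g' (g x) = x := by decide
  have hg2 : ∀ x, g (g' x) = x := by decide
  have hadj : ∀ i j : Fin 2 ⊕ Fin 2, (completeBipartiteGraph (Fin 2) (Fin 2)).Adj i j ↔
      (SimpleGraph.cycleGraph 4).Adj (g i) (g j) := by
    intro i j
    rw [e, completeBipartiteGraph_adj]
    revert i j
    decide
  let E : (Fin 4 → Fin m) ≃ (Fin 2 ⊕ Fin 2 → Fin m) :=
    { toFun := fun c v => c (g v)
      invFun := fun c v => c (g' v)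
      left_inv := fun c => by ext v; simp only [hg2]
      right_inv := fun c => by ext v; simp only [hg1] }
  have : Col (completeBipartiteGraph (Fin 2) (Fin 2)) m = E '' Col (SimpleGraph.cycleGraph 4) m := by
    ext c
    simp only [Col, Set.mem_ofPred_eq, Set.mem_image]
    constructor
    · intro h
      refine ⟨E.symm c, fun i j hij => ?_, E.apply_symm_apply c⟩
      have := h (g' i) (g' j) ((hadj _ _).2 (by rw [hg2, hg2]; exact hij))
      exact this
    · rintro ⟨d, hd, rfl⟩ i j hij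
      exact hd _ _ ((hadj _ _).1 hij)
  rw [this, Set.ncard_image_of_injective _ (Equiv.injective _)]

theorem dv_two {m : ℕ} (x : Fin 2 → Fin m) : dv x = if x 0 = x 1 then 1 else 2 := by
  unfold dv
  have : (Finset.univ.image x) = {x 0, x 1} := by
    ext a
    simp only [Finset.mem_image, Finset.mem_univ, true_and, Finset.mem_insert,
      Finset.mem_singleton, Fin.exists_fin_two]
    constructor
    · rintro (h | h)
      · exact Or.inl h.symm
      · exact Or.inr h.symm
    · rintro (h | h)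
      · exact Or.inl h.symm
      · exact Or.inr h.symm
  rw [this]
  split_ifs with h
  · rw [h]; simp
  · exact Finset.card_pair h

theorem col_C4_val (m : ℕ) (hm : 2 ≤ m) :
    (Set.ncard (Col (SimpleGraph.cycleGraph 4) m) : ℝ) = ((m:ℝ) - 1) ^ 4 + ((m:ℝ) - 1) := by
  rw [col_C4, col_bip]
  have h1 : ∀ x : Fin 2 → Fin m, (m - dv x) ^ 2 =
      (m - 2) ^ 2 + (if x 0 = x 1 then ((m - 1) ^ 2 - (m - 2) ^ 2) else 0) := by
    intro x
    rw [dv_two]
    split_ifs
    · rw [add_comm, Nat.sub_add_cancel]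
      exact Nat.pow_le_pow_left (by omega) 2
    · rfl
  rw [Finset.sum_congr rfl fun x _ => h1 x, Finset.sum_add_distrib, Finset.sum_const,
    Finset.card_univ, Fintype.card_fun, Fintype.card_fin, Fintype.card_fin]
  have h2 : (∑ x : Fin 2 → Fin m, if x 0 = x 1 then ((m - 1) ^ 2 - (m - 2) ^ 2) else 0)
      = m * ((m - 1) ^ 2 - (m - 2) ^ 2) := by
    rw [← Finset.sum_filter, Finset.sum_const, smul_eq_mul]
    congr 1
    have : (Finset.univ.filter fun x : Fin 2 → Fin m => x 0 = x 1) =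
        Finset.univ.map ⟨fun a : Fin m => fun _ : Fin 2 => a, fun a b h => congrFun h 0⟩ := by
      ext x
      simp only [Finset.mem_filter, Finset.mem_univ, true_and, Finset.mem_map]
      constructor
      · intro h
        refine ⟨x 0, ?_⟩
        funext i
        fin_cases i
        · rfl
        · exact h
      · rintro ⟨a, rfl⟩
        rfl
    rw [this, Finset.card_map, Finset.card_univ, Fintype.card_fin]
  rw [h2]
  have h3 : (m - 2) ^ 2 ≤ (m - 1) ^ 2 := Nat.pow_le_pow_left (by omega) 2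
  rw [smul_eq_mul]
  push_cast [Nat.cast_sub h3, Nat.cast_sub hm, Nat.cast_sub (show 1 ≤ m by omega)]
  ring

theorem col_C3 (m : ℕ) :
    Set.ncard (Col (SimpleGraph.cycleGraph 3) m) = m.descFactorial 3 := by
  have h : SimpleGraph.cycleGraph 3 = ⊤ := by
    ext i j
    revert i j
    decide
  rw [h, col_top, Fintype.card_fin]

end Pool.Agent.K6.H78.Count
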